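import Mathlib

/-! A cubic graph on 92 vertices with total chromatic number 4 that is not 4-total-choosable.
Sixteen copies of `K_(2,3)` with three pendant edges force equal colours on these edges. -/

namespace Pool.Agent.H552Z.LT

/-- neighbours with the colour of the joining edge -/
def tab : List (List (ℕ × ℕ)) :=
  [[(2, 3), (3, 2), (4, 1)], [(2, 2), (3, 1), (4, 3)], [(0, 3), (1, 2), (80, 0)], [(0, 2), (1, 1),
   (81, 0)], [(0, 1), (1, 3), (82, 0)], [(7, 3), (8, 2), (9, 1)], [(7, 1), (8, 3), (9, 2)], [(5,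
   3), (6, 1), (83, 0)], [(5, 2), (6, 3), (84, 0)], [(5, 1), (6, 2), (85, 0)], [(12, 3), (13, 2),
   (14, 1)], [(12, 1), (13, 3), (14, 2)], [(10, 3), (11, 1), (86, 0)], [(10, 2), (11, 3), (87,
   0)], [(10, 1), (11, 2), (88, 0)], [(17, 2), (18, 1), (19, 3)], [(17, 3), (18, 2), (19, 1)],
   [(15, 2), (16, 3), (89, 0)], [(15, 1), (16, 2), (90, 0)], [(15, 3), (16, 1), (91, 0)], [(22,
   3), (23, 0), (24, 2)], [(22, 2), (23, 3), (24, 0)], [(20, 3), (21, 2), (80, 1)], [(20, 0), (21,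
   3), (84, 1)], [(20, 2), (21, 0), (29, 1)], [(27, 2), (28, 0), (29, 3)], [(27, 3), (28, 2), (29,
   0)], [(25, 2), (26, 3), (86, 1)], [(25, 0), (26, 2), (89, 1)], [(24, 1), (25, 3), (26, 0)],
   [(32, 2), (33, 1), (34, 0)], [(32, 1), (33, 0), (34, 2)], [(30, 2), (31, 1), (80, 3)], [(30,
   1), (31, 0), (83, 3)], [(30, 0), (31, 2), (39, 3)], [(37, 2), (38, 1), (39, 0)], [(37, 0), (38,
   2), (39, 1)], [(35, 2), (36, 0), (87, 3)], [(35, 1), (36, 2), (89, 3)], [(34, 3), (35, 0), (36,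
   1)], [(42, 1), (43, 3), (44, 0)], [(42, 0), (43, 1), (44, 3)], [(40, 1), (41, 0), (81, 2)],
   [(40, 3), (41, 1), (83, 2)], [(40, 0), (41, 3), (49, 2)], [(47, 3), (48, 1), (49, 0)], [(47,
   0), (48, 3), (49, 1)], [(45, 3), (46, 0), (86, 2)], [(45, 1), (46, 3), (90, 2)], [(44, 2), (45,
   0), (46, 1)], [(52, 0), (53, 3), (54, 1)], [(52, 3), (53, 1), (54, 0)], [(50, 0), (51, 3), (82,
   2)], [(50, 3), (51, 1), (84, 2)], [(50, 1), (51, 0), (59, 2)], [(57, 1), (58, 0), (59, 3)],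
   [(57, 0), (58, 3), (59, 1)], [(55, 1), (56, 0), (88, 2)], [(55, 0), (56, 3), (91, 2)], [(54,
   2), (55, 3), (56, 1)], [(62, 3), (63, 0), (64, 2)], [(62, 0), (63, 2), (64, 3)], [(60, 3), (61,
   0), (82, 1)], [(60, 0), (61, 2), (85, 1)], [(60, 2), (61, 3), (69, 1)], [(67, 2), (68, 3), (69,
   0)], [(67, 3), (68, 0), (69, 2)], [(65, 2), (66, 3), (87, 1)], [(65, 3), (66, 0), (91, 1)],
   [(64, 1), (65, 0), (66, 2)], [(72, 0), (73, 2), (74, 1)], [(72, 1), (73, 0), (74, 2)], [(70,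
   0), (71, 1), (81, 3)], [(70, 2), (71, 0), (85, 3)], [(70, 1), (71, 2), (79, 3)], [(77, 0), (78,
   1), (79, 2)], [(77, 1), (78, 2), (79, 0)], [(75, 0), (76, 1), (88, 3)], [(75, 1), (76, 2), (90,
   3)], [(74, 3), (75, 2), (76, 0)], [(2, 0), (22, 1), (32, 3)], [(3, 0), (42, 2), (72, 3)], [(4,
   0), (52, 2), (62, 1)], [(7, 0), (33, 3), (43, 2)], [(8, 0), (23, 1), (53, 2)], [(9, 0), (63,
   1), (73, 3)], [(12, 0), (27, 1), (47, 2)], [(13, 0), (37, 3), (67, 1)], [(14, 0), (57, 2), (77,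
   3)], [(17, 0), (28, 1), (38, 3)], [(18, 0), (48, 2), (78, 3)], [(19, 0), (58, 2), (68, 1)]]

/-- colours of the vertices -/
def cvT : List ℕ :=
  [0, 0, 1, 3, 2, 0, 0, 2, 1, 3, 0, 0, 2, 1, 3, 0, 0, 1, 3, 2, 1, 1, 0, 2, 3, 1, 1, 0, 3, 2, 3,
   3, 0, 2, 1, 3, 3, 1, 0, 2, 2, 2, 3, 0, 1, 2, 2, 1, 0, 3, 2, 2, 1, 0, 3, 2, 2, 3, 1, 0, 1, 1, 2,
   3, 0, 1, 1, 0, 2, 3, 3, 3, 2, 1, 0, 3, 3, 2, 0, 1, 2, 1, 3, 1, 3, 2, 3, 2, 1, 2, 1, 3]

/-- outer ends of the pendant edges of the gadgets -/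
def portT : List (List ℕ) :=
  [[80, 81, 82], [83, 84, 85], [86, 87, 88], [89, 90, 91], [80, 84, 29], [86, 89, 24], [80, 83,
   39], [87, 89, 34], [81, 83, 49], [86, 90, 44], [82, 84, 59], [88, 91, 54], [82, 85, 69], [87,
   91, 64], [81, 85, 79], [88, 90, 74]]

def row (u : Fin 92) : List (ℕ × ℕ) := tab.getD u []

def adjB (u v : Fin 92) : Bool := (row u).any fun p => p.1 == v.val

def ceN (u v : Fin 92) : ℕ := ((row u).lookup v.val).getD 0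

def G : SimpleGraph (Fin 92) where
  Adj u v := adjB u v = true
  symm := ⟨by decide +kernel⟩
  loopless := ⟨by decide +kernel⟩

instance : DecidableRel G.Adj := fun u v => inferInstanceAs (Decidable (adjB u v = true))

def cv4 (u : Fin 92) : Fin 4 := Fin.ofNat 4 (cvT.getD u 0)

def ce4 (u v : Fin 92) : Fin 4 := Fin.ofNat 4 (ceN u v)

lemma ce4_symm : ∀ u v, ce4 u v = ce4 v u := by decide +kernel

lemma ok1 : ∀ u v, G.Adj u v → cv4 u ≠ cv4 v ∧ cv4 u ≠ ce4 u v := by decide +kernel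

lemma ok2 : ∀ u v, G.Adj u v → ∀ w, G.Adj u w → v ≠ w → ce4 u v ≠ ce4 u w := by decide +kernel

theorem colourable : ∃ c : Fin 92 ⊕ G.edgeSet → Fin 4,
      (∀ u v : Fin 92, G.Adj u v → c (Sum.inl u) ≠ c (Sum.inl v)) ∧
      (∀ e f : G.edgeSet, e ≠ f →
        (∃ v : Fin 92, v ∈ (e : Sym2 (Fin 92)) ∧ v ∈ (f : Sym2 (Fin 92))) →
          c (Sum.inr e) ≠ c (Sum.inr f)) ∧
      (∀ (v : Fin 92) (e : G.edgeSet), v ∈ (e : Sym2 (Fin 92)) →
          c (Sum.inl v) ≠ c (Sum.inr e)) := by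
  refine ⟨Sum.elim cv4 fun e => Sym2.lift ⟨ce4, ce4_symm⟩ e.1, fun u v h => (ok1 u v h).1, ?_, ?_⟩
  · rintro ⟨e, he⟩ ⟨f, hf⟩ hne ⟨v, h1, h2⟩
    obtain ⟨a, rfl⟩ := Sym2.mem_iff_exists.1 h1
    obtain ⟨b, rfl⟩ := Sym2.mem_iff_exists.1 h2
    exact ok2 v a he b hf fun h => hne (by subst h; rfl)
  · rintro v ⟨e, he⟩ h1
    obtain ⟨a, rfl⟩ := Sym2.mem_iff_exists.1 h1
    exact (ok1 v a he).2

/-- the six lists -/
def lst : ℕ → List ℕ
  | 0 => [0, 1, 4, 5]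
  | 1 => [0, 1, 6, 7]
  | 2 => [2, 3, 4, 5]
  | 3 => [2, 3, 6, 7]
  | 4 => [0, 1, 2, 3]
  | _ => [4, 5, 6, 7]

/-- the list index of a gadget -/
def reg (g : ℕ) : ℕ := if g < 4 then g else if g < 10 then 4 else 5

def lv (u : Fin 92) : List ℕ := lst (reg (u.val / 5))

def le (u v : Fin 92) : List ℕ := lst (reg (min u.val v.val / 5))

lemma le_symm (u v : Fin 92) : le u v = le v u := by simp only [le, min_comm]

lemma lst_card (r : ℕ) : 4 ≤ (lst r).toFinset.card := by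
  unfold lst
  split <;> decide

set_option synthInstance.maxSize 100000 in
set_option maxRecDepth 100000 in
lemma gadget : ∀ r : Fin 6, ∀ x0 ∈ lst r, ∀ e00 ∈ lst r, x0 ≠ e00 → ∀ e01 ∈ lst r, x0 ≠ e01 →
    e00 ≠ e01 → ∀ e02 ∈ lst r, x0 ≠ e02 → e00 ≠ e02 → e01 ≠ e02 →
    ∀ x1 ∈ lst r, ∀ e10 ∈ lst r, x1 ≠ e10 → e00 ≠ e10 → ∀ e11 ∈ lst r, x1 ≠ e11 →
    e10 ≠ e11 → e01 ≠ e11 → ∀ e12 ∈ lst r, x1 ≠ e12 → e10 ≠ e12 → e11 ≠ e12 → e02 ≠ e12 →
    ∀ y0 ∈ lst r, x0 ≠ y0 → x1 ≠ y0 → y0 ≠ e00 → y0 ≠ e10 →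
    ∀ y1 ∈ lst r, x0 ≠ y1 → x1 ≠ y1 → y1 ≠ e01 → y1 ≠ e11 →
    ∀ y2 ∈ lst r, x0 ≠ y2 → x1 ≠ y2 → y2 ≠ e02 → y2 ≠ e12 →
    (∀ p ∈ lst r, y0 ≠ p → e00 ≠ p → e10 ≠ p → p = x0) ∧
    (∀ p ∈ lst r, y1 ≠ p → e01 ≠ p → e11 ≠ p → p = x0) ∧
    (∀ p ∈ lst r, y2 ≠ p → e02 ≠ p → e12 ≠ p → p = x0) := by
  decide +kernel

lemma final : ∀ a0 ∈ lst 4, ∀ a1 ∈ lst 4, a0 ≠ a1 → ∀ a2 ∈ lst 4, a0 ≠ a2 → a1 ≠ a2 →
    ∀ b0 ∈ lst 5, ∀ b1 ∈ lst 5, b0 ≠ b1 → ∀ b2 ∈ lst 5, b0 ≠ b2 → b1 ≠ b2 →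
    ∃ j : Fin 4, ∀ z ∈ lst j, z = a0 ∨ z = a1 ∨ z = a2 ∨ z = b0 ∨ z = b1 ∨ z = b2 := by
  decide +kernel

/-- vertex `k` of gadget `g` -/
def gv (g : Fin 16) (k : Fin 5) : Fin 92 := Fin.ofNat 92 (5 * g.val + k.val)

/-- outer end of port `b` of gadget `g` -/
def pv (g : Fin 16) (b : Fin 3) : Fin 92 := Fin.ofNat 92 ((portT.getD g []).getD b 0)

def inn (g : Fin 16) (b : Fin 3) : Fin 92 := gv g (Fin.ofNat 5 (b.val + 2))

def rg (g : Fin 16) : Fin 6 := Fin.ofNat 6 (reg g)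

lemma facts : ∀ (g : Fin 16) (b : Fin 3), G.Adj (gv g 0) (inn g b) ∧ G.Adj (gv g 1) (inn g b) ∧
    G.Adj (inn g b) (pv g b) ∧ gv g 0 ≠ gv g 1 ∧ gv g 0 ≠ pv g b ∧ gv g 1 ≠ pv g b ∧
    lv (gv g 0) = lst (rg g) ∧ lv (gv g 1) = lst (rg g) ∧ lv (inn g b) = lst (rg g) ∧
    le (gv g 0) (inn g b) = lst (rg g) ∧ le (gv g 1) (inn g b) = lst (rg g) ∧
    le (inn g b) (pv g b) = lst (rg g) ∧ ∀ b', b ≠ b' → inn g b ≠ inn g b' := by
  decide +kernel

theorem core (cv : Fin 92 → ℕ) (ce : Fin 92 → Fin 92 → ℕ) (hs : ∀ u v, ce u v = ce v u)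
    (m1 : ∀ u, cv u ∈ lv u) (m2 : ∀ u v, G.Adj u v → ce u v ∈ le u v)
    (h1 : ∀ u v, G.Adj u v → cv u ≠ cv v) (h2 : ∀ u v, G.Adj u v → cv u ≠ ce u v)
    (h3 : ∀ u v w, G.Adj u v → G.Adj u w → v ≠ w → ce u v ≠ ce u w) : False := by
  have key : ∀ g b, ce (inn g b) (pv g b) = cv (gv g 0) := by
    intro g
    have f := facts g
    have mx0 : cv (gv g 0) ∈ lst (rg g) := (f 0).2.2.2.2.2.2.1 ▸ m1 _
    have mx1 : cv (gv g 1) ∈ lst (rg g) := (f 0).2.2.2.2.2.2.2.1 ▸ m1 _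
    have my : ∀ b, cv (inn g b) ∈ lst (rg g) := fun b => (f b).2.2.2.2.2.2.2.2.1 ▸ m1 _
    have me0 : ∀ b, ce (gv g 0) (inn g b) ∈ lst (rg g) := fun b =>
      (f b).2.2.2.2.2.2.2.2.2.1 ▸ m2 _ _ (f b).1
    have me1 : ∀ b, ce (gv g 1) (inn g b) ∈ lst (rg g) := fun b =>
      (f b).2.2.2.2.2.2.2.2.2.2.1 ▸ m2 _ _ (f b).2.1
    have mp : ∀ b, ce (inn g b) (pv g b) ∈ lst (rg g) := fun b =>
      (f b).2.2.2.2.2.2.2.2.2.2.2.1 ▸ m2 _ _ (f b).2.2.1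
    have a0 : ∀ b, cv (gv g 0) ≠ ce (gv g 0) (inn g b) := fun b => h2 _ _ (f b).1
    have a1 : ∀ b, cv (gv g 1) ≠ ce (gv g 1) (inn g b) := fun b => h2 _ _ (f b).2.1
    have d0 : ∀ b b', b ≠ b' → ce (gv g 0) (inn g b) ≠ ce (gv g 0) (inn g b') := fun b b' h =>
      h3 _ _ _ (f b).1 (f b').1 ((f b).2.2.2.2.2.2.2.2.2.2.2.2 b' h)
    have d1 : ∀ b b', b ≠ b' → ce (gv g 1) (inn g b) ≠ ce (gv g 1) (inn g b') := fun b b' h =>
      h3 _ _ _ (f b).2.1 (f b').2.1 ((f b).2.2.2.2.2.2.2.2.2.2.2.2 b' h)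
    have d2 : ∀ b, ce (gv g 0) (inn g b) ≠ ce (gv g 1) (inn g b) := fun b => by
      rw [hs (gv g 0), hs (gv g 1)]
      exact h3 _ _ _ (f b).1.symm (f b).2.1.symm (f b).2.2.2.1
    have v0 : ∀ b, cv (gv g 0) ≠ cv (inn g b) := fun b => h1 _ _ (f b).1
    have v1 : ∀ b, cv (gv g 1) ≠ cv (inn g b) := fun b => h1 _ _ (f b).2.1
    have y0 : ∀ b, cv (inn g b) ≠ ce (gv g 0) (inn g b) := fun b => by
      rw [hs]; exact h2 _ _ (f b).1.symm
    have y1 : ∀ b, cv (inn g b) ≠ ce (gv g 1) (inn g b) := fun b => by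
      rw [hs]; exact h2 _ _ (f b).2.1.symm
    have yp : ∀ b, cv (inn g b) ≠ ce (inn g b) (pv g b) := fun b => h2 _ _ (f b).2.2.1
    have p0 : ∀ b, ce (gv g 0) (inn g b) ≠ ce (inn g b) (pv g b) := fun b => by
      rw [hs]; exact h3 _ _ _ (f b).1.symm (f b).2.2.1 (f b).2.2.2.2.1
    have p1 : ∀ b, ce (gv g 1) (inn g b) ≠ ce (inn g b) (pv g b) := fun b => by
      rw [hs]; exact h3 _ _ _ (f b).2.1.symm (f b).2.2.1 (f b).2.2.2.2.2.1
    have := gadget (rg g) _ mx0 _ (me0 0) (a0 0) _ (me0 1) (a0 1) (d0 0 1 (by decide)) _ (me0 2)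
      (a0 2) (d0 0 2 (by decide)) (d0 1 2 (by decide)) _ mx1 _ (me1 0) (a1 0) (d2 0) _ (me1 1)
      (a1 1) (d1 0 1 (by decide)) (d2 1) _ (me1 2) (a1 2) (d1 0 2 (by decide))
      (d1 1 2 (by decide)) (d2 2) _ (my 0) (v0 0) (v1 0) (y0 0) (y1 0) _ (my 1) (v0 1) (v1 1)
      (y0 1) (y1 1) _ (my 2) (v0 2) (v1 2) (y0 2) (y1 2)
    intro b
    fin_cases b
    · exact this.1 _ (mp 0) (yp 0) (p0 0) (p1 0)
    · exact this.2.1 _ (mp 1) (yp 1) (p0 1) (p1 1)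
    · exact this.2.2 _ (mp 2) (yp 2) (p0 2) (p1 2)
  have link : ∀ g g', pv g 2 = inn g' 2 → pv g' 2 = inn g 2 → cv (gv g 0) = cv (gv g' 0) := by
    intro g g' e1 e2
    rw [← key g 2, ← key g' 2, e1, e2, hs]
  have jn : ∀ g b g' b', pv g b = pv g' b' → inn g b ≠ inn g' b' → cv (gv g 0) ≠ cv (gv g' 0) := by
    intro g b g' b' e1 e2
    rw [← key g b, ← key g' b', hs (inn g b), hs (inn g' b'), ← e1]
    exact h3 _ _ _ (facts g b).2.2.1.symm (e1 ▸ (facts g' b').2.2.1.symm) e2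
  have mem : ∀ g, cv (gv g 0) ∈ lst (rg g) := fun g => (facts g 0).2.2.2.2.2.2.1 ▸ m1 _
  have l4 := link 4 5 (by decide +kernel) (by decide +kernel)
  have l6 := link 6 7 (by decide +kernel) (by decide +kernel)
  have l8 := link 8 9 (by decide +kernel) (by decide +kernel)
  have l10 := link 10 11 (by decide +kernel) (by decide +kernel)
  have l12 := link 12 13 (by decide +kernel) (by decide +kernel)
  have l14 := link 14 15 (by decide +kernel) (by decide +kernel)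
  have j0 := jn 0 0 4 0 (by decide +kernel) (by decide +kernel)
  have j1 := jn 0 0 6 0 (by decide +kernel) (by decide +kernel)
  have j2 := jn 4 0 6 0 (by decide +kernel) (by decide +kernel)
  have j3 := jn 0 1 8 0 (by decide +kernel) (by decide +kernel)
  have j4 := jn 0 1 14 0 (by decide +kernel) (by decide +kernel)
  have j5 := jn 8 0 14 0 (by decide +kernel) (by decide +kernel)
  have j6 := jn 0 2 10 0 (by decide +kernel) (by decide +kernel)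
  have j7 := jn 0 2 12 0 (by decide +kernel) (by decide +kernel)
  have j8 := jn 10 0 12 0 (by decide +kernel) (by decide +kernel)
  have j9 := jn 1 0 6 1 (by decide +kernel) (by decide +kernel)
  have j10 := jn 1 0 8 1 (by decide +kernel) (by decide +kernel)
  have j11 := jn 6 1 8 1 (by decide +kernel) (by decide +kernel)
  have j12 := jn 1 1 4 1 (by decide +kernel) (by decide +kernel)
  have j13 := jn 1 1 10 1 (by decide +kernel) (by decide +kernel)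
  have j14 := jn 4 1 10 1 (by decide +kernel) (by decide +kernel)
  have j15 := jn 1 2 12 1 (by decide +kernel) (by decide +kernel)
  have j16 := jn 1 2 14 1 (by decide +kernel) (by decide +kernel)
  have j17 := jn 12 1 14 1 (by decide +kernel) (by decide +kernel)
  have j18 := jn 2 0 5 0 (by decide +kernel) (by decide +kernel)
  have j19 := jn 2 0 9 0 (by decide +kernel) (by decide +kernel)
  have j20 := jn 5 0 9 0 (by decide +kernel) (by decide +kernel)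
  have j21 := jn 2 1 7 0 (by decide +kernel) (by decide +kernel)
  have j22 := jn 2 1 13 0 (by decide +kernel) (by decide +kernel)
  have j23 := jn 7 0 13 0 (by decide +kernel) (by decide +kernel)
  have j24 := jn 2 2 11 0 (by decide +kernel) (by decide +kernel)
  have j25 := jn 2 2 15 0 (by decide +kernel) (by decide +kernel)
  have j26 := jn 11 0 15 0 (by decide +kernel) (by decide +kernel)
  have j27 := jn 3 0 5 1 (by decide +kernel) (by decide +kernel)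
  have j28 := jn 3 0 7 1 (by decide +kernel) (by decide +kernel)
  have j29 := jn 5 1 7 1 (by decide +kernel) (by decide +kernel)
  have j30 := jn 3 1 9 1 (by decide +kernel) (by decide +kernel)
  have j31 := jn 3 1 15 1 (by decide +kernel) (by decide +kernel)
  have j32 := jn 9 1 15 1 (by decide +kernel) (by decide +kernel)
  have j33 := jn 3 2 11 1 (by decide +kernel) (by decide +kernel)
  have j34 := jn 3 2 13 1 (by decide +kernel) (by decide +kernel)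
  have j35 := jn 11 1 13 1 (by decide +kernel) (by decide +kernel)
  simp only [← l4, ← l6, ← l8, ← l10, ← l12, ← l14] at j18 j19 j20 j21 j22 j24 j25 j26 j27 j28 j30
  simp only [← l4, ← l6, ← l8, ← l10, ← l12, ← l14] at j31 j33 j34
  obtain ⟨j, hj⟩ := final _ (mem 4) _ (mem 6) j2 _ (mem 8) j20 j11
    _ (mem 10) _ (mem 12) j8 _ (mem 14) j26 j17
  fin_cases j
  · rcases hj _ (mem 0) with h | h | h | h | h | h
    exacts [j0 h, j1 h, j3 h, j6 h, j7 h, j4 h]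
  · rcases hj _ (mem 1) with h | h | h | h | h | h
    exacts [j12 h, j9 h, j10 h, j13 h, j15 h, j16 h]
  · rcases hj _ (mem 2) with h | h | h | h | h | h
    exacts [j18 h, j21 h, j19 h, j24 h, j22 h, j25 h]
  · rcases hj _ (mem 3) with h | h | h | h | h | h
    exacts [j27 h, j28 h, j30 h, j33 h, j34 h, j31 h]

open Classical in
theorem not_choosable : ∃ L : Fin 92 ⊕ G.edgeSet → Finset ℕ, (∀ x, 4 ≤ (L x).card) ∧
    ¬ ∃ c : Fin 92 ⊕ G.edgeSet → ℕ, (∀ x, c x ∈ L x) ∧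
      (∀ u v : Fin 92, G.Adj u v → c (Sum.inl u) ≠ c (Sum.inl v)) ∧
      (∀ e f : G.edgeSet, e ≠ f →
        (∃ v : Fin 92, v ∈ (e : Sym2 (Fin 92)) ∧ v ∈ (f : Sym2 (Fin 92))) →
          c (Sum.inr e) ≠ c (Sum.inr f)) ∧
      (∀ (v : Fin 92) (e : G.edgeSet), v ∈ (e : Sym2 (Fin 92)) →
          c (Sum.inl v) ≠ c (Sum.inr e)) := by
  refine ⟨Sum.elim (fun u => (lv u).toFinset) fun e => (Sym2.lift ⟨le, le_symm⟩ e.1).toFinset,
    ?_, ?_⟩
  · rintro (u | ⟨e, he⟩)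
    · exact lst_card _
    · induction e using Sym2.ind with
      | _ u v => exact lst_card _
  rintro ⟨c, hm, c1, c2, c3⟩
  let cE : Sym2 (Fin 92) → ℕ := fun e => if h : e ∈ G.edgeSet then c (Sum.inr ⟨e, h⟩) else 0
  have hE : ∀ u v (h : G.Adj u v), cE s(u, v) = c (Sum.inr ⟨s(u, v), h⟩) := fun u v h =>
    dif_pos (show s(u, v) ∈ G.edgeSet from h)
  refine core (fun u => c (Sum.inl u)) (fun u v => cE s(u, v)) (fun u v => by rw [Sym2.eq_swap])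
    (fun u => List.mem_toFinset.1 (hm (Sum.inl u))) (fun u v h => ?_) c1 (fun u v h => ?_)
    (fun u v w h h' hne => ?_)
  · rw [hE u v h]
    exact List.mem_toFinset.1 (hm (Sum.inr ⟨s(u, v), h⟩))
  · rw [hE u v h]
    exact c3 u _ (Sym2.mem_mk_left u v)
  · rw [hE u v h, hE u w h']
    refine c2 _ _ (fun e => hne ?_) ⟨u, Sym2.mem_mk_left u v, Sym2.mem_mk_left u w⟩
    exact Sym2.congr_right.1 (congrArg Subtype.val e)

end Pool.Agent.H552Z.LT
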